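import Pool.Agent.ISB.StmtsC

/-!
# Squad ISB (MP_4f548a_al), row CLB: the class of the normal 2-subgroup
-/

set_option autoImplicit false

namespace Pool.Agent.ISB.H90

open scoped Classical commutatorElement

/-- row CLB -/
theorem clb (h1 : GrpStmt) (h2 : KorStmt) (h3 : RobStmt) : ClbStmt := by
  intro r n hr hodd
  obtain ⟨c, hc⟩ := h1 r n hr hodd
  refine ⟨c, ?_⟩
  intro G Ω _ _ _ _ _ a P hP hN htr hcard horb hcl hfix
  have hpos : 0 < Nat.card Ω := by
    rw [hcard]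
    have := hr.pos
    positivity
  have hne : Nonempty Ω := (Nat.card_pos_iff.1 hpos).1
  obtain ⟨α⟩ := hne
  obtain ⟨κ, ω, hrot, m, hm⟩ := h3 G Ω r a P α hr hodd hN htr hcard (horb α) hfix
  have hκ : κ ^ r = 1 := h2 G Ω r P κ ω hr hodd hP hrot m hm
  have hω : ∀ k : ℕ, ω k = κ ^ k • ω 0 := by
    intro k
    induction k with
    | zero => rw [pow_zero, one_smul]
    | succ k ih => rw [pow_succ', mul_smul, ← ih, hrot.sh]
  have hgm : gm P c = ⊥ := by
    refine hc P hP (MulAut.conjNormal κ) ((MulAction.stabilizer G (ω 0)).subgroupOf P) ?_ ?_ ?_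
    · intro x
      rw [← map_pow, hκ, map_one]
      rfl
    · have h4 := Subgroup.map_lowerCentralSeries
        (S := (MulAction.stabilizer G (ω 0)).subgroupOf P) P.subtype n
      rw [Subgroup.subgroupOf_map_subtype, hcl (ω 0)] at h4
      exact (Subgroup.map_eq_bot_iff_of_injective _ P.subtype_injective).1 h4
    · intro x
      obtain ⟨y, hy⟩ := hfix x.1 x.2
      obtain ⟨k, hk, g, hg, hyg⟩ := hrot.cov y
      have hmem : (κ ^ k)⁻¹ * (g⁻¹ * (x : G) * g) * κ ^ k ∈ P := by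
        have h5 : g⁻¹ * (x : G) * g ∈ P := P.mul_mem (P.mul_mem (P.inv_mem hg) x.2) hg
        have h6 := hN.conj_mem _ h5 (κ ^ k)⁻¹
        rwa [inv_inv] at h6
      refine ⟨k, hk, ⟨g, hg⟩, ⟨_, hmem⟩, ?_, ?_⟩
      · rw [Subgroup.mem_subgroupOf, MulAction.mem_stabilizer_iff]
        show ((κ ^ k)⁻¹ * (g⁻¹ * (x : G) * g) * κ ^ k) • ω 0 = ω 0
        rw [mul_smul, ← hω, mul_smul, mul_smul, mul_smul, ← hyg, hy, hyg, inv_smul_smul, hω k,
          inv_smul_smul]
      · apply Subtype.ext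
        rw [← map_pow]
        show (x : G) = g * ((MulAut.conjNormal (κ ^ k) (⟨_, hmem⟩ : P) : P) : G) * g⁻¹
        rw [MulAut.conjNormal_apply]
        show (x : G) = g * (κ ^ k * ((κ ^ k)⁻¹ * (g⁻¹ * (x : G) * g) * κ ^ k) * (κ ^ k)⁻¹) * g⁻¹
        group
  have h7 := Subgroup.top_subtype_lowerCentralSeries P c
  have h8 : (⊤ : Subgroup P).lowerCentralSeries c = ⊥ := hgm
  rw [h8, Subgroup.map_bot] at h7
  exact h7.symm

end Pool.Agent.ISB.H90
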